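import Pool.Agent.P.MP_026e5e_nt.Main

/-! Every solution of `σ n = k n + 5` has at least four distinct prime factors. -/

namespace Pool.Agent.Results.MP_026e5e_nt.FourPrimes

/-- If the sum of the divisors of `n` is `k n + 5`, then `n` has at least four distinct prime
factors. -/
theorem result :
    ∀ n k : ℕ, ∑ d ∈ n.divisors, d = k * n + 5 → 4 ≤ n.primeFactors.card :=
  fun n k h => Pool.Agent.P.MP_026e5e_nt.main (k := k)
    ((ArithmeticFunction.sigma_one_apply n).trans h)

end Pool.Agent.Results.MP_026e5e_nt.FourPrimes
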