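import Pool.Agent.P.MP_026e5e_nt.Fifth.Count

/-! Few solutions of `σ n ≡ a (mod n)` have `σ n` odd. -/

namespace Pool.Agent.Results.MP_026e5e_nt.OddSigma

/-- For `a ≠ 0` the number of `n ≤ x` with `σ n` odd and `n ∣ σ n - a` is `O(x^(1/5+ε))`. -/
theorem result :
    ∀ a : ℤ, a ≠ 0 → ∀ ε : ℝ, 0 < ε → ∃ C : ℝ, ∀ x : ℕ, 1 ≤ x →
      (Set.ncard {n : ℕ | 1 ≤ n ∧ n ≤ x ∧ Odd (∑ d ∈ n.divisors, d) ∧
          (n : ℤ) ∣ ((∑ d ∈ n.divisors, d : ℕ) : ℤ) - a} : ℝ) ≤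
        C * (x : ℝ) ^ (1 / 5 + ε) := by
  intro a ha ε hε
  obtain ⟨C, hC⟩ := Pool.Agent.P.MP_026e5e_nt.Fifth.main a ha ε hε
  refine ⟨C, fun x hx => le_of_eq_of_le ?_ (hC x hx)⟩
  rw [← Set.ncard_coe_finset]
  congr 2
  ext n
  rw [Finset.mem_coe, Finset.mem_filter, Finset.mem_Icc, and_assoc]
  rfl

end Pool.Agent.Results.MP_026e5e_nt.OddSigma
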